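import Mathlib

set_option autoImplicit false

namespace Pool.Agent.Results.MP_8ede36_co.LocallyFinite

/-- The Euclidean plane. -/
abbrev Pl := EuclideanSpace ℝ (Fin 2)

/-- The vertex set: points of `2^{-k} ℤ²` for some `k ≤ ‖p‖ + 10`. -/
def InV (p : Pl) : Prop := ∃ k : ℕ, (k : ℝ) ≤ ‖p‖ + 10 ∧ ∀ i, ∃ z : ℤ, p i * 2 ^ k = z

/-- Vertices. -/
abbrev V : Type := {p : Pl // InV p}

/-- Two distinct vertices are adjacent when their distance is at most one. -/
def G : SimpleGraph V where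
  Adj v w := v ≠ w ∧ ‖v.1 - w.1‖ ≤ 1
  symm := ⟨fun v w h => ⟨h.1.symm, by rw [norm_sub_rev]; exact h.2⟩⟩
  loopless := ⟨fun v h => h.1 rfl⟩

theorem norm_le_of_coord {p : Pl} {c : ℝ} (h : ∀ i, |p i| ≤ c) : ‖p‖ ≤ 2 * c := by
  have hc : 0 ≤ c := le_trans (abs_nonneg _) (h 0)
  rw [EuclideanSpace.norm_eq, Fin.sum_univ_two]
  have h0 : ‖p 0‖ ^ 2 ≤ c ^ 2 := by
    rw [Real.norm_eq_abs]; exact pow_le_pow_left₀ (abs_nonneg _) (h 0) 2
  have h1 : ‖p 1‖ ^ 2 ≤ c ^ 2 := by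
    rw [Real.norm_eq_abs]; exact pow_le_pow_left₀ (abs_nonneg _) (h 1) 2
  calc √(‖p 0‖ ^ 2 + ‖p 1‖ ^ 2) ≤ √((2 * c) ^ 2) := by
        apply Real.sqrt_le_sqrt; nlinarith
    _ = 2 * c := Real.sqrt_sq (by positivity)

/-- Rounding. -/
theorem round_exists (q : Pl) (n : ℕ) (hn : (n : ℝ) ≤ ‖q‖ + 1) :
    ∃ v : V, ‖v.1 - q‖ ≤ (1 / 2 : ℝ) ^ n / 8 := by
  set r : Pl := WithLp.toLp 2 (fun i => (⌊q i * 2 ^ (n + 4)⌋ : ℝ) / 2 ^ (n + 4)) with hr
  have hri : ∀ i, r i = (⌊q i * 2 ^ (n + 4)⌋ : ℝ) / 2 ^ (n + 4) := fun i => by simp [hr]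
  have hp : (0 : ℝ) < 2 ^ (n + 4) := by positivity
  have hd : ‖r - q‖ ≤ (1 / 2 : ℝ) ^ n / 8 := by
    have h := norm_le_of_coord (p := r - q) (c := 1 / 2 ^ (n + 4)) (by
      intro i
      rw [PiLp.sub_apply, hri]
      have h1 : (⌊q i * 2 ^ (n + 4)⌋ : ℝ) ≤ q i * 2 ^ (n + 4) := Int.floor_le _
      have h2 : q i * 2 ^ (n + 4) < (⌊q i * 2 ^ (n + 4)⌋ : ℝ) + 1 := Int.lt_floor_add_one _
      have h3 : (⌊q i * 2 ^ (n + 4)⌋ : ℝ) / 2 ^ (n + 4) - q i
          = ((⌊q i * 2 ^ (n + 4)⌋ : ℝ) - q i * 2 ^ (n + 4)) / 2 ^ (n + 4) := by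
        field_simp
      rw [h3, abs_div, abs_of_pos hp]
      apply div_le_div_of_nonneg_right _ hp.le
      rw [abs_le]; constructor <;> linarith)
    refine h.trans (le_of_eq ?_)
    rw [pow_add, one_div_pow]; field_simp; norm_num
  refine ⟨⟨r, n + 4, ?_, fun i => ⟨⌊q i * 2 ^ (n + 4)⌋, ?_⟩⟩, hd⟩
  · have h1 : (1 / 2 : ℝ) ^ n ≤ 1 := pow_le_one₀ (by norm_num) (by norm_num)
    have h2 : ‖q‖ ≤ ‖r‖ + ‖r - q‖ := by
      calc ‖q‖ = ‖r - (r - q)‖ := by congr 1; abel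
        _ ≤ _ := norm_sub_le _ _
    push_cast
    linarith
  · rw [hri]; field_simp

theorem add_norm_ge {q w : Pl} (h : 0 ≤ inner ℝ q w) : ‖w‖ ≤ ‖q + w‖ := by
  have h1 := norm_add_sq_real q w
  have h2 : ‖w‖ ^ 2 ≤ ‖q + w‖ ^ 2 := by nlinarith [sq_nonneg ‖q‖]
  exact le_of_sq_le_sq h2 (norm_nonneg _)

/-- The sequence of parameters. -/
noncomputable def tt (i : ℕ) : ℝ := i - 1 + (1 / 2) ^ i

theorem adj_or_eq {v w : V} (h : ‖v.1 - w.1‖ ≤ 1) :
    ∃ p : G.Walk v w, p.length ≤ 1 := by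
  by_cases hvw : v = w
  · subst hvw; exact ⟨SimpleGraph.Walk.nil, by simp⟩
  · have hadj : G.Adj v w := ⟨hvw, h⟩
    exact ⟨SimpleGraph.Walk.cons hadj SimpleGraph.Walk.nil, by
      rw [SimpleGraph.Walk.length_cons, SimpleGraph.Walk.length_nil]⟩

/-- Outward steps. -/
theorem out_steps {q w : Pl} (hqw : 0 ≤ inner ℝ q w) (hw : w ≠ 0) {v0 : V}
    (hv0 : ‖v0.1 - q‖ ≤ 1 / 8) (i : ℕ) : tt i ≤ ‖w‖ →
    ∃ v : V, ‖v.1 - (q + (tt i / ‖w‖) • w)‖ ≤ (1 / 2) ^ i / 8 ∧
      ∃ p : G.Walk v0 v, p.length ≤ i := by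
  have hwn : 0 < ‖w‖ := norm_pos_iff.mpr hw
  induction i with
  | zero =>
    intro _
    refine ⟨v0, ?_, SimpleGraph.Walk.nil, by simp⟩
    simpa [tt] using hv0
  | succ i ih =>
    intro hi
    have hpw : (0 : ℝ) < (1 / 2) ^ i := by positivity
    have ht : tt (i + 1) = tt i + 1 - (1 / 2) ^ i / 2 := by
      unfold tt; push_cast; rw [pow_succ]; ring
    have hle1 : (1 / 2 : ℝ) ^ i ≤ 1 := pow_le_one₀ (by norm_num) (by norm_num)
    obtain ⟨v, hv, p, hp⟩ := ih (by linarith)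
    have htn : 0 ≤ tt (i + 1) := by
      unfold tt; push_cast
      have : (0 : ℝ) < (1 / 2) ^ (i + 1) := by positivity
      have : (0 : ℝ) ≤ i := by positivity
      linarith
    have hin : 0 ≤ inner ℝ q ((tt (i + 1) / ‖w‖) • w) := by
      rw [inner_smul_right]
      exact mul_nonneg (by positivity) hqw
    have hnorm : ‖(tt (i + 1) / ‖w‖) • w‖ = tt (i + 1) := by
      rw [norm_smul, Real.norm_of_nonneg (by positivity)]; field_simp
    have hge := add_norm_ge hin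
    rw [hnorm] at hge
    obtain ⟨v', hv'⟩ := round_exists (q + (tt (i + 1) / ‖w‖) • w) (i + 1) (by
      have : ((i : ℝ)) ≤ tt (i + 1) := by
        unfold tt; push_cast
        have : (0 : ℝ) < (1 / 2) ^ (i + 1) := by positivity
        linarith
      push_cast; linarith)
    have hstep : ‖(tt (i + 1) / ‖w‖) • w - (tt i / ‖w‖) • w‖ = 1 - (1 / 2) ^ i / 2 := by
      rw [← sub_smul, norm_smul, ← sub_div, ht, Real.norm_of_nonneg]
      · field_simp; ring
      · apply div_nonneg _ hwn.le; linarith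
    have hd : ‖v.1 - v'.1‖ ≤ 1 := by
      have e : v.1 - v'.1 = (v.1 - (q + (tt i / ‖w‖) • w))
          - (v'.1 - (q + (tt (i + 1) / ‖w‖) • w))
          - ((tt (i + 1) / ‖w‖) • w - (tt i / ‖w‖) • w) := by abel
      rw [e]
      refine (norm_sub_le _ _).trans ?_
      rw [hstep]
      have h3 := norm_sub_le (v.1 - (q + (tt i / ‖w‖) • w))
          (v'.1 - (q + (tt (i + 1) / ‖w‖) • w))
      have h4 : (1 / 2 : ℝ) ^ (i + 1) = (1 / 2) ^ i / 2 := by rw [pow_succ]; ring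
      rw [h4] at hv'
      linarith
    obtain ⟨p', hp'⟩ := adj_or_eq hd
    refine ⟨v', hv', p.append p', ?_⟩
    rw [SimpleGraph.Walk.length_append]; omega

theorem out_walk {q : Pl} {v0 y : V} (hqw : 0 ≤ inner ℝ q (y.1 - q))
    (hv0 : ‖v0.1 - q‖ ≤ 1 / 8) :
    ∃ p : G.Walk v0 y, (p.length : ℝ) ≤ ‖y.1 - q‖ + 2 := by
  by_cases hw : y.1 - q = 0
  · have : ‖v0.1 - y.1‖ ≤ 1 := by
      rw [sub_eq_zero.mp hw]; linarith
    obtain ⟨p, hp⟩ := adj_or_eq this
    refine ⟨p, ?_⟩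
    have : (p.length : ℝ) ≤ 1 := by exact_mod_cast hp
    linarith [norm_nonneg (y.1 - q)]
  · set w := y.1 - q with hwdef
    have hwn : 0 < ‖w‖ := norm_pos_iff.mpr hw
    have hex : ∃ j : ℕ, ‖w‖ < tt j := by
      obtain ⟨j, hj⟩ := exists_nat_gt (‖w‖ + 1)
      refine ⟨j, ?_⟩
      unfold tt
      have : (0 : ℝ) < (1 / 2) ^ j := by positivity
      linarith
    classical
    have hj := Nat.find_spec hex
    have hmin := fun m => Nat.find_min hex (m := m)
    set j := Nat.find hex with hjdef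
    have hj0 : j ≠ 0 := by
      intro h; rw [h] at hj; simp [tt] at hj; linarith
    obtain ⟨i, hi⟩ := Nat.exists_eq_succ_of_ne_zero hj0
    have hile : tt i ≤ ‖w‖ := not_lt.mp (hmin i (by omega))
    rw [hi, Nat.succ_eq_add_one] at hj
    have ht : tt (i + 1) = tt i + 1 - (1 / 2) ^ i / 2 := by
      unfold tt; push_cast; rw [pow_succ]; ring
    obtain ⟨v, hv, p, hp⟩ := out_steps hqw hw hv0 i hile
    have hd : ‖v.1 - y.1‖ ≤ 1 := by
      have e : v.1 - y.1 = (v.1 - (q + (tt i / ‖w‖) • w)) - (w - (tt i / ‖w‖) • w) := by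
        rw [hwdef]; abel
      rw [e]
      refine (norm_sub_le _ _).trans ?_
      have h5 : ‖w - (tt i / ‖w‖) • w‖ = ‖w‖ - tt i := by
        have : w - (tt i / ‖w‖) • w = (1 - tt i / ‖w‖) • w := by rw [sub_smul, one_smul]
        rw [this, norm_smul, Real.norm_of_nonneg]
        · field_simp
        · rw [sub_nonneg, div_le_one hwn]; exact hile
      rw [h5]
      have hpw : (0 : ℝ) < (1 / 2) ^ i := by positivity
      linarith
    obtain ⟨p', hp'⟩ := adj_or_eq hd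
    refine ⟨p.append p', ?_⟩
    rw [SimpleGraph.Walk.length_append]
    have h6 : (i : ℝ) ≤ tt i + 1 := by
      unfold tt
      have : (0 : ℝ) < (1 / 2) ^ i := by positivity
      linarith
    have h7 : (p.length : ℝ) ≤ i := by exact_mod_cast hp
    have h8 : (p'.length : ℝ) ≤ 1 := by exact_mod_cast hp'
    push_cast
    linarith

/-- The point of the segment closest to the origin. -/
theorem foot (x y : Pl) : ∃ q : Pl, 0 ≤ inner ℝ q (x - q) ∧ 0 ≤ inner ℝ q (y - q) ∧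
    ‖x - q‖ + ‖y - q‖ = ‖x - y‖ := by
  by_cases h1 : 0 ≤ inner ℝ x (y - x)
  · exact ⟨x, by simp, h1, by simp [norm_sub_rev]⟩
  by_cases h2 : 0 ≤ inner ℝ y (x - y)
  · exact ⟨y, h2, by simp, by simp⟩
  push Not at h1 h2
  set w := y - x with hw
  have hwn : w ≠ 0 := by
    intro h; rw [h] at h1; simp at h1
  have hpos : 0 < inner ℝ w w := by
    rw [real_inner_self_eq_norm_sq]; positivity
  set t : ℝ := - inner ℝ x w / inner ℝ w w with ht
  have hyx : x - y = - w := by rw [hw]; abel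
  have hy : y = x + w := by rw [hw]; abel
  have h2' : 0 < inner ℝ x w + inner ℝ w w := by
    rw [hyx, hy, inner_neg_right, inner_add_left] at h2; linarith
  have ht0 : 0 ≤ t := div_nonneg (by linarith) hpos.le
  have ht1 : t ≤ 1 := by rw [ht, div_le_one hpos]; linarith
  have horth : inner ℝ (x + t • w) w = (0 : ℝ) := by
    rw [inner_add_left, inner_smul_left, ht]
    simp only [conj_trivial]
    field_simp; ring
  refine ⟨x + t • w, ?_, ?_, ?_⟩
  · have : x - (x + t • w) = (-t) • w := by rw [neg_smul]; abel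
    rw [this, inner_smul_right, horth]; simp
  · have : y - (x + t • w) = (1 - t) • w := by rw [hy, sub_smul, one_smul]; abel
    rw [this, inner_smul_right, horth]; simp
  · have e1 : x - (x + t • w) = (-t) • w := by rw [neg_smul]; abel
    have e2 : y - (x + t • w) = (1 - t) • w := by rw [hy, sub_smul, one_smul]; abel
    rw [e1, e2, hyx, norm_smul, norm_smul, norm_neg, norm_neg, Real.norm_eq_abs,
      Real.norm_eq_abs, abs_of_nonneg ht0, abs_of_nonneg (by linarith : 0 ≤ 1 - t)]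
    ring

theorem walk_le (x y : V) : ∃ p : G.Walk x y, (p.length : ℝ) ≤ ‖x.1 - y.1‖ + 4 := by
  obtain ⟨q, h1, h2, h3⟩ := foot x.1 y.1
  obtain ⟨v0, hv0⟩ := round_exists q 0 (by simp; positivity)
  rw [pow_zero] at hv0
  obtain ⟨p1, hp1⟩ := out_walk h1 hv0
  obtain ⟨p2, hp2⟩ := out_walk h2 hv0
  refine ⟨p1.reverse.append p2, ?_⟩
  rw [SimpleGraph.Walk.length_append, SimpleGraph.Walk.length_reverse]
  push_cast
  linarith

theorem norm_le_walk {x y : V} (p : G.Walk x y) : ‖x.1 - y.1‖ ≤ p.length := by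
  induction p with
  | nil => simp
  | @cons u v w h p ih =>
    rw [SimpleGraph.Walk.length_cons]
    have : ‖u.1 - w.1‖ ≤ ‖u.1 - v.1‖ + ‖v.1 - w.1‖ := norm_sub_le_norm_sub_add_norm_sub _ _ _
    push_cast
    linarith [h.2]

theorem conn : G.Connected := by
  have : Nonempty V := ⟨(round_exists 0 0 (by simp)).choose⟩
  refine ⟨fun x y => ?_⟩
  obtain ⟨p, _⟩ := walk_le x y
  exact ⟨p⟩

theorem dist_bound (x y : V) : |‖x.1 - y.1‖ - (G.dist x y : ℝ)| < 5 := by
  obtain ⟨p, hp⟩ := walk_le x y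
  have h1 : (G.dist x y : ℝ) ≤ p.length := by exact_mod_cast SimpleGraph.dist_le p
  obtain ⟨p', hp'⟩ := (conn.preconnected x y).exists_walk_length_eq_dist
  have h2 := norm_le_walk p'
  rw [hp'] at h2
  rw [abs_lt]; constructor <;> linarith

theorem finite_nbr (x : V) : (G.neighborSet x).Finite := by
  obtain ⟨K, hK⟩ := exists_nat_gt (‖x.1‖ + 11)
  obtain ⟨M, hM⟩ := exists_nat_gt ((‖x.1‖ + 1) * 2 ^ K)
  have hfin : (Set.Icc (fun _ : Fin 2 => (-(M : ℤ))) (fun _ => (M : ℤ))).Finite :=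
    Set.finite_Icc _ _
  have him := hfin.image (fun z : Fin 2 → ℤ =>
    (WithLp.toLp 2 (fun i => (z i : ℝ) / 2 ^ K) : Pl))
  have hinj : Function.Injective (fun v : V => v.1) := Subtype.val_injective
  refine Set.Finite.of_finite_image (f := fun v : V => v.1) (him.subset ?_) hinj.injOn
  rintro _ ⟨y, hy, rfl⟩
  have hadj : ‖x.1 - y.1‖ ≤ 1 := hy.2
  have hyn : ‖y.1‖ ≤ ‖x.1‖ + 1 := by
    calc ‖y.1‖ = ‖x.1 - (x.1 - y.1)‖ := by congr 1; abel
      _ ≤ ‖x.1‖ + ‖x.1 - y.1‖ := norm_sub_le _ _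
      _ ≤ _ := by linarith
  obtain ⟨k, hk, hz⟩ := y.2
  have hkK : k ≤ K := by
    have : (k : ℝ) ≤ K := by linarith
    exact_mod_cast this
  choose z hz using hz
  refine ⟨fun i => z i * 2 ^ (K - k), ?_, ?_⟩
  · have hbd : ∀ i, |((z i * 2 ^ (K - k) : ℤ) : ℝ)| ≤ M := by
      intro i
      have e : ((z i * 2 ^ (K - k) : ℤ) : ℝ) = y.1 i * 2 ^ K := by
        push_cast
        rw [← hz i, mul_assoc, ← pow_add]
        congr 2; omega
      rw [e, abs_mul, abs_of_pos (by positivity : (0 : ℝ) < 2 ^ K)]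
      have h1 : |y.1 i| ≤ ‖y.1‖ := by
        have := PiLp.norm_apply_le y.1 i
        rwa [Real.norm_eq_abs] at this
      have : |y.1 i| * 2 ^ K ≤ (‖x.1‖ + 1) * 2 ^ K := by
        apply mul_le_mul_of_nonneg_right (h1.trans hyn) (by positivity)
      linarith
    constructor
    · intro i
      have := (abs_le.mp (hbd i)).1
      have h2 : ((-(M : ℤ) : ℤ) : ℝ) ≤ ((z i * 2 ^ (K - k) : ℤ) : ℝ) := by push_cast at this ⊢; linarith
      exact_mod_cast h2
    · intro i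
      have := (abs_le.mp (hbd i)).2
      have h2 : ((z i * 2 ^ (K - k) : ℤ) : ℝ) ≤ ((M : ℤ) : ℝ) := by push_cast at this ⊢; linarith
      exact_mod_cast h2
  · apply PiLp.ext
    intro i
    simp only
    push_cast
    rw [← hz i, mul_assoc, ← pow_add, Nat.add_sub_cancel' hkK]
    field_simp

/-- **Kozma's question for locally finite graphs.** There is a connected locally finite graph
that is roughly isometric to the Euclidean plane with multiplicative constant one. -/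
theorem result :
    ∃ (V : Type) (G : SimpleGraph V) (f : V → EuclideanSpace ℝ (Fin 2)) (C : ℝ),
      G.Connected ∧
      (∀ v, (G.neighborSet v).Finite) ∧
      (∀ x y : V, |‖f x - f y‖ - (G.dist x y : ℝ)| < C) ∧
      (∀ p : EuclideanSpace ℝ (Fin 2), ∃ x : V, ‖f x - p‖ < C) := by
  refine ⟨V, G, fun v => v.1, 5, conn, finite_nbr, dist_bound, fun p => ?_⟩
  obtain ⟨v, hv⟩ := round_exists p 0 (by simp; positivity)
  refine ⟨v, ?_⟩
  rw [pow_zero] at hv
  linarith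

end Pool.Agent.Results.MP_8ede36_co.LocallyFinite
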